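import Pool.Agent.Lib.MP_ff6929_pr.Hol

set_option autoImplicit false

open Pool.Agent.Lib.MP_ff6929_pr

/-- The probability that the random `n`-lift of the complete digraph on three vertices is
Hamiltonian is at most `2 n ^ (-δ)`, where `δ = 1 - (1 + log log 2) / log 2` is positive. -/
theorem Pool.Agent.Results.MP_ff6929_pr.RarelyHamiltonian.result :
    ∃ δ : ℝ, δ = 1 - (1 + Real.log (Real.log 2)) / Real.log 2 ∧ 0 < δ ∧
      ∀ n : ℕ, 1 ≤ n → hamProb (completeDigraph 3) n ≤ 2 * (n : ℝ) ^ (-δ) := by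
  have l1 := Real.log_two_gt_d9
  have l2 := Real.log_two_lt_d9
  have l0 : 0 < Real.log 2 := by linarith
  refine ⟨_, rfl, ?_, fun n hn => ?_⟩
  · rw [sub_pos, div_lt_one l0]
    linarith [Real.log_lt_sub_one_of_pos l0 (by linarith)]
  obtain ⟨m, rfl⟩ : ∃ m, n = m + 1 := ⟨n - 1, by omega⟩
  have h0 : Real.log (Real.log 2) ≤ 0 := Real.log_nonpos l0.le (by linarith)
  have h1 : -Real.log (Real.log 2) ≤ Real.log 2 := by
    rw [← Real.log_inv]
    exact Real.log_le_log (by positivity) (by rw [inv_le_comm₀ l0 (by norm_num)]; linarith)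
  have h := hamProb_le_pow (θ := -Real.log (Real.log 2) / Real.log 2)
    (div_nonneg (by linarith) l0.le) ((div_le_one l0).mpr h1) m
  rw [Real.rpow_def_of_pos two_pos, mul_div_cancel₀ _ l0.ne', Real.exp_neg, Real.exp_log l0] at h
  push_cast
  refine h.trans (le_of_eq ?_)
  congr 2
  field_simp
  ring
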